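import Mathlib
import Pool.Agent.TH44.SS.Tate

/-!
# Tate classes and semisimplicity for products of almost all abelian varieties with smooth varieties

Let `g i` (`i` in a finite set `I`) be positive integers, `r` an integer smaller than all the `g i`
and `E` a number field.  For a prime power `q` let `S i` be the set of the characteristic
polynomials of Frobenius of the ordinary abelian varieties of dimension `g i` over the field with
`q` elements, or of all abelian varieties of dimension `g i`, or any set in between.  By Weil, Honda
and Tate its elements correspond to the isogeny classes, the first set contains the set
`ordinaryWeilPolys q (g i)`, and the second one is contained in `weilPolys q (g i)`.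

For all families `f i` in `S i` with the exception of a proportion `O (q ^ (-1 / 6) log q)`, the
constant depending only on `g` and `E`, the following holds for all `s > 0`, `Q = q ^ s`, all
abelian varieties `A` over the field with `Q` elements which are isogenous to products of powers of
abelian varieties coming from the field with `q` elements, with characteristic polynomials `f i`,
and **all** smooth varieties `U` over the field with `Q` elements, not necessarily proper, such that
in each degree the eigenvalues of Frobenius on the cohomology `H m` of `U` and their conjugates
generate a group of rank at most `r` modulo the group of the numbers with a power in `E`.

Let `Z m` be the span of the classes of cycles on `U` over the algebraic closure in the cohomology of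
degree `m`. Suppose that over all finite extensions the Tate conjecture (surjectivity of the cycle
maps) and the semisimplicity of the eigenvalue `1` hold for `U`, that is: for all `j` and `N > 0`
each element of the generalized eigenspace of the `N`-th power of Frobenius in `H ^ (2 j)` for the
eigenvalue `Q ^ (j N)` belongs to `Z (2 j)`. Then the same is true for `A × U`: each element of the
generalized eigenspace of the `N`-th power of Frobenius in the cohomology of degree `2 i` for the
eigenvalue `Q ^ (i N)` is an eigenvector, and a combination of products of classes of divisors on
`A` and of classes in `Z`.

This is not formal, although all this is known for the divisors on `A` and Frobenius is semisimple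
on the cohomology of `A`, since the (generalized) Tate classes of `A × U` involve all the
eigenvalues `ρ` of `U` such that `ρ α` is a power of `Q` for some product `α` of eigenvalues of `A`.

The idea of the proof: by a sieve (helper521), which only uses the primes that split completely in
the Galois closure of `E` - these have positive density by the theorem of Chebotarev, formalized by
helper401 - almost all families are such that each pair `α`, `q / α` of roots can be exchanged by a
Galois automorphism which fixes all the other roots of all the `f i` and also all elements of `E`. So
a product of roots, no two of them with product `q`, is never the product of a power of `q` and the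
inverse of an eigenvalue for `U`, up to roots of unity.
-/

set_option autoImplicit false

namespace Pool.Agent.Results.MP_81632f_ag.AbelianTimesSmooth

open Polynomial Pool.Agent.W521.Descent Pool.Agent.W521.Count Pool.Agent.TH44.SS

/-- `weilPolys q g` is the set of monic integral polynomials of degree `2 g` with constant term
`q ^ g` and all roots of absolute value `√q`; `ordinaryWeilPolys q g` is the subset of those
whose coefficient of index `g` is prime to `q`. -/
theorem result {I : Type} [Fintype I] (g : I → ℕ) (r : ℕ) (hr : ∀ i, r < g i)
    (E : IntermediateField ℚ ℂ) [FiniteDimensional ℚ E] :
    ∃ C : ℝ, ∀ q : ℕ, IsPrimePow q → ∀ S : I → Set ℤ[X],
      (∀ i, ordinaryWeilPolys q (g i) ⊆ S i ∧ S i ⊆ weilPolys q (g i)) →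
      (∀ i, (S i).Finite ∧ (S i).Nonempty) ∧
      ({f : I → ℤ[X] | (∀ i, f i ∈ S i) ∧ ¬ TateSemisimple E q r f}.ncard : ℝ) ≤
        C * (Real.log q * (q : ℝ) ^ (-(1 / 6) : ℝ)) * ∏ i, ((S i).ncard : ℝ) :=
  count_tate g r hr E

end Pool.Agent.Results.MP_81632f_ag.AbelianTimesSmooth
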