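import Pool.Agent.TH943.TP.GrProd

/-!
Tate classes and semisimplicity for products of squares of explicit smooth affine varieties of every
dimension: the étale double coverings of the complement of `f(x_n) ∏ (x_i - h_i(x_(i-1))) = 0` in affine
space. All Tate classes are combinations of products of graphs of powers of the Frobenius.
-/

set_option autoImplicit false
set_option maxHeartbeats 1000000

open Polynomial TensorProduct

namespace Pool.Agent.Results.MP_81632f_ag.GraphClasses

section defs

variable {κ : Type} [Field κ]

/-- The composition `f(h_n(... h_1(x)))`; here `h_1` is `h 0`. -/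
noncomputable def composite : (n : ℕ) → (Fin n → κ[X]) → κ[X] → κ[X]
  | 0, _, f => f
  | n + 1, h, f => (composite n (fun i => h i.succ) f).comp (h 0)

/-- The data of a covering: a number `n`, polynomials `h_1, ..., h_(n+1)` (`h_1` is `h 0`) and `f`, and
exponents. -/
structure Datum (κ : Type) [Field κ] : Type where
  n : ℕ
  h : Fin (n + 1) → κ[X]
  f : κ[X]
  b : Fin (n + 1) → ℕ
  c : ℕ

/-- The degree of the whole composition. -/
noncomputable def Datum.M (D : Datum κ) : ℕ := (composite (D.n + 1) D.h D.f).natDegree

/-- The degree of the composition without `h_1`. -/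
noncomputable def Datum.K (D : Datum κ) : ℕ := (composite D.n (fun i => D.h i.succ) D.f).natDegree

/-- The dimension of the covering. -/
def Datum.dim (D : Datum κ) : ℕ := D.n + 2

/-- The value of the function `G = f(x_(n+1)) ^ c ∏ (x_i - h_i(x_(i-1))) ^ b_i`, product over
`i = 1, ..., n + 1`, at the point `x = (x_0, ..., x_(n+1))` over `L`. -/
noncomputable def value (L : Type) [Field L] [Algebra κ L] (D : Datum κ) (x : Fin (D.n + 2) → L) : L :=
  (aeval (x (Fin.last (D.n + 1))) D.f) ^ D.c *
    ∏ i : Fin (D.n + 1), (x i.succ - aeval (x i.castSucc) (D.h i)) ^ D.b i

/-- The number of points over `L` of the open set `U` of affine space where `G` is not zero. -/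
noncomputable def openCount (L : Type) [Field L] [Algebra κ L] (D : Datum κ) : ℕ :=
  Set.ncard {x : Fin (D.n + 2) → L | value L D x ≠ 0}

/-- The number of points over `L` of the double covering `v ^ 2 = G(x)` of `U`. -/
noncomputable def coverCount (L : Type) [Field L] [Algebra κ L] (D : Datum κ) : ℕ :=
  Set.ncard {y : (Fin (D.n + 2) → L) × L | value L D y.1 ≠ 0 ∧ y.2 ^ 2 = value L D y.1}

/-- The composition of all the polynomials is irreducible of odd degree, the degrees of the `h_i` are
not divisible by the characteristic of `κ`, and the exponents are odd. -/
structure IsAdmissible (D : Datum κ) : Prop where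
  irreducible : Irreducible (composite (D.n + 1) D.h D.f)
  degree : Odd D.M
  tame : ∀ i, ((D.h i).natDegree : κ) ≠ 0
  exponents : ∀ i, Odd (D.b i)
  exponent : Odd D.c

end defs

section cohomology

variable {E : Type} [Field E]

/-- A space `W` with an endomorphism `Φ`, a pairing `B` and elements `γ_t` of `W ⊗ W`: the part of the
middle cohomology of the double covering `X` of `U` on which the involution is `-1`, the Frobenius, the
cup product, and the class of the graph of the `t`-th power of the Frobenius morphism in the square
of `X`, up to the sign. -/
structure Middle (E : Type) [Field E] : Type 1 where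
  W : Type
  [group : AddCommGroup W]
  [module : Module E W]
  [finite : FiniteDimensional E W]
  Φ : Module.End E W
  B : W →ₗ[E] W →ₗ[E] E
  γ : ℕ → W ⊗[E] W

attribute [instance] Middle.group Middle.module Middle.finite

/-- The cup product of two classes in `W`. -/
def cup (C : Middle E) (x y : C.W) : E := C.B x y

/-- The product of a class in `W ⊗ W` with the class `x ⊗ y`. -/
noncomputable def pairing (C : Middle E) (x y : C.W) : C.W ⊗[E] C.W →ₗ[E] E :=
  LinearMap.mul' E E ∘ₗ TensorProduct.map (C.B.flip x) (C.B.flip y)

/-- The cup product is perfect, symmetric up to the sign, and multiplied by `q ^ N` by Frobenius. -/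
structure IsPairing (q N : ℕ) (C : Middle E) : Prop where
  nondegenerate : ∀ v, (∀ x, cup C v x = 0) → v = 0
  symmetric : ∀ x y, cup C x y = (-1) ^ N * cup C y x
  similitude : ∀ x y, cup C (C.Φ x) (C.Φ y) = (q : E) ^ N * cup C x y

/-- `C` is the part `-1` of the middle cohomology of the double covering `X` of `U`: trace formula for
`X` and `U`, the dimension (Euler characteristic of `U`, up to the sign), the cup product, and the
products of the graphs with the classes `x ⊗ y`. -/
structure IsCohomology {κ : Type} [Field κ] [Fintype κ] (D : Datum κ) (C : Middle E) : Prop where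
  lefschetz : ∀ (L : Type) [Field L] [Fintype L] [Algebra κ L],
    (-1) ^ D.dim * LinearMap.trace E C.W (C.Φ ^ Module.finrank κ L) =
      (coverCount L D : E) - (openCount L D : E)
  dimension : Module.finrank E C.W + D.K = D.M
  isPairing : IsPairing (Fintype.card κ) D.dim C
  graph : ∀ t x y, pairing C x y (C.γ t) = cup C x ((C.Φ ^ t) y)

/-- The pure part of the cohomology of the square of `X`: the pure part of the cohomology of `X` is the
sum of `H^0` and `W`. -/
def Square (C : Middle E) : Type := (E × C.W) ⊗[E] (E × C.W)

noncomputable instance (C : Middle E) : AddCommGroup (Square C) :=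
  inferInstanceAs (AddCommGroup ((E × C.W) ⊗[E] (E × C.W)))

noncomputable instance (C : Middle E) : Module E (Square C) :=
  inferInstanceAs (Module E ((E × C.W) ⊗[E] (E × C.W)))

/-- The Frobenius on the pure part of the cohomology of the square of `X`. -/
noncomputable def squareFrobenius (C : Middle E) : Module.End E (Square C) :=
  TensorProduct.map (LinearMap.prodMap LinearMap.id C.Φ) (LinearMap.prodMap LinearMap.id C.Φ)

/-- The class of the square of `X` (for `none`), and of the graph of the `t`-th power of the
Frobenius morphism (for `some t`). -/
noncomputable def component (C : Middle E) : Option ℕ → Square C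
  | none => ((1, 0) ⊗ₜ[E] (1, 0) : (E × C.W) ⊗[E] (E × C.W))
  | some t => TensorProduct.map (LinearMap.inr E E C.W) (LinearMap.inr E E C.W) (C.γ t)

/-- The pure part of the cohomology of the product of the squares of the varieties `X_i`. -/
def Product {ι : Type} (C : ι → Middle E) : Type := ⨂[E] i, Square (C i)

noncomputable instance {ι : Type} (C : ι → Middle E) : AddCommGroup (Product C) :=
  inferInstanceAs (AddCommGroup (⨂[E] i, Square (C i)))

noncomputable instance {ι : Type} (C : ι → Middle E) : Module E (Product C) :=
  inferInstanceAs (Module E (⨂[E] i, Square (C i)))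

/-- The Frobenius on the cohomology of the product. -/
noncomputable def productFrobenius {ι : Type} (C : ι → Middle E) : Module.End E (Product C) :=
  PiTensorProduct.map fun i => squareFrobenius (C i)

/-- The class of the product of graphs of powers of the Frobenius and of squares. -/
noncomputable def productClass {ι : Type} (C : ι → Middle E) (k : ι → Option ℕ) : Product C :=
  PiTensorProduct.tprod E fun i => component (C i) (k i)

/-- The space spanned by the classes of codimension `j` of the products of graphs of powers of the
Frobenius in the squares of some of the `X_i`, and of the squares of the others. -/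
noncomputable def graphClasses {κ : Type} [Field κ] {ι : Type} [Fintype ι] (D : ι → Datum κ)
    (C : ι → Middle E) (j : ℕ) : Submodule E (Product C) :=
  Submodule.span E (productClass C '' {k | ∑ i, (if (k i).isSome then (D i).dim else 0) = j})

theorem component_eq (C : Middle E) (l : Option ℕ) :
    component C l = Pool.Agent.TH943.TP.comp1 C.γ l := by
  cases l <;> rfl

end cohomology

theorem composite_eq {κ : Type} [Field κ] (n : ℕ) : ∀ (h : Fin n → κ[X]) (f : κ[X]),
    composite n h f = Pool.Agent.TH943.IP.cmp n h f := by
  induction n with
  | zero => intro h f; rfl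
  | succ n ih =>
    intro h f
    show (composite n (fun i => h i.succ) f).comp (h 0) = _
    rw [ih]
    rfl

/-- **Tate classes on products of squares of double coverings.**

Let `κ` be a finite field with `q` elements, `q` odd. For every `i` in a finite set let `f_i` and
`h_(i,1), ..., h_(i,n+1)`, `n = n_i ≥ 0`, be polynomials over `κ` such that
`f_i(h_(i,n+1)(... h_(i,1)(x)))` is irreducible of odd degree `M_i`, the degrees of the `h_(i,j)` are
prime to the characteristic, and `c_i`, `b_(i,j)` odd positive integers. Let `N_i = n_i + 2 ≥ 2`,
`G_i = f_i(x_(n+1)) ^ (c_i) ∏ (x_j - h_(i,j)(x_(j-1))) ^ (b_(i,j))`, `U_i` the open set `G_i ≠ 0` of the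
affine space of dimension `N_i`, and `X_i` the étale double covering `v ^ 2 = G_i(x)` of `U_i`, a smooth
affine variety of dimension `N_i`.

Let `ℓ` be a prime prime to `q` and `E` an algebraic closure of the field of `ℓ`-adic numbers, and
`L_i` the sheaf of rank one on `U_i` of the covering. The groups `H^j_c(U_i, L_i)` are zero for
`j ≠ N_i`, and the map to `H^j(U_i, L_i)` is an isomorphism. Indeed the components of the divisor
`G_i = 0` of affine space cross normally, because the composition is separable; and when one integrates
over `x_0, x_1, ...`, the sheaves that appear have no invariants and coinvariants for the inertia at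
infinity (the characters of its tame quotient that appear are products of characters of order at most
two with nontrivial characters of odd order, or are the quadratic character in the first step). So
`W_i = H^(N_i)_c(U_i, L_i)` is pure of weight `N_i`, and the cup product `B_i` on `W_i`, with values
in `H^(2 N_i)_c(X_i, E) = E(-N_i)`, is perfect. The class of the graph `Γ_t` of the `t`-th power of the
Frobenius morphism of `X_i` has codimension `N_i` in the square of `X_i`; as `X_i` is affine of
dimension `N_i`, it lies in `H^(N_i)(X_i) ⊗ H^(N_i)(X_i)`, and then, being invariant under the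
diagonal involution and of weight `2 N_i`, in `W_i ⊗ W_i`, since `H^(N_i)(U_i, E)` has weight `2 N_i`.
So `IsCohomology` holds. All intersections of components of the divisor `G_i = 0` are products of affine
spaces and finite schemes, so that `H^b(U_i, E)` has weight `2 b`, and the pure part (weight `b` in
degree `b`, for all `b`) of the cohomology of `X_i` is the sum of `H^0` and `W_i`. Hence, for the
product `X` of the squares of the `X_i`, a smooth affine variety of dimension `2 ∑ N_i`, the
generalized eigenspace for the eigenvalue one of Frobenius on `H^(2 j)(X, E(j))` is the generalized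
eigenspace of `productFrobenius` for the eigenvalue `q ^ j`; in the same way over the extensions
`κ_r` of `κ` of degree `r`, with the `r`-th powers.

Theorem: assume that the numbers `M_i` are pairwise coprime and that `r ≥ 1` is prime to all of them.
Then this generalized eigenspace over `κ_r` is contained in the space spanned by the classes of the
cycles that are products of graphs `Γ_(t_i)` of powers of the Frobenius morphisms in the squares of
some of the `X_i` and of the squares of the other `X_i`.

Consequences for the questions: for the variety `X` over `κ_r`, the cycle maps `c^j` are surjective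
for all `j` (the surjectivity in Q1), and the eigenvalue one of Frobenius is semisimple (Q2). The
same follows for the products in which some of the squares are replaced by `X_i` (direct factors).
The space of Tate classes of codimension `j` has the dimension `∑_I ∏_(i ∈ I) (M_i - M_i / deg h_(i,1))`,
sum over the sets `I` with `∑_(i ∈ I) N_i = j`, and is not bounded.

Example: `κ` with `211` elements, `i = 1, 2, 3`; `f_i` any monic irreducible polynomials of the
degrees `1`, `11`, `13` with `f_i(0) = -2` (the element `2` generates the multiplicative group), all
`h_(i,j)` equal to `x ^ 3`, `x ^ 5`, `x ^ 7` for `i = 1, 2, 3`, and any `n_1`, `n_2`, `n_3`. -/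
theorem result (κ : Type) [Field κ] [Fintype κ] (h2 : (2 : κ) ≠ 0) (ι : Type) [Fintype ι]
    (D : ι → Datum κ) (hadm : ∀ i, IsAdmissible (D i))
    (hcop : ∀ i j, i ≠ j → Nat.Coprime (D i).M (D j).M)
    (E : Type) [Field E] [CharZero E] [IsAlgClosed E] (C : ι → Middle E)
    (hC : ∀ i, IsCohomology (D i) (C i)) (r : ℕ) (hr0 : 0 < r)
    (hr : ∀ i, Nat.Coprime (D i).M r) (j : ℕ) :
    (productFrobenius C ^ r).maxGenEigenspace ((Fintype.card κ : E) ^ (r * j)) ≤
      graphClasses D C j := by
  classical
  have hmain : ∀ i, (C i).Φ.charpoly.Separable ∧ (C i).Φ.IsSemisimple ∧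
      ∀ (k : Type) [Field k] [CharP k 2] (θ : (integralClosure ℤ E).toSubring →+* k),
        (∀ (α : E) (w : (C i).W), w ≠ 0 → (C i).Φ w = α • w →
          ∃ x : (integralClosure ℤ E).toSubring,
          (x : E) = α ∧ θ x ^ (D i).M = 1 ∧ θ x ^ (D i).K ≠ 1) ∧
        (∀ (x y : (integralClosure ℤ E).toSubring) (v w : (C i).W), v ≠ 0 → w ≠ 0 →
          (C i).Φ v = (x : E) • v → (C i).Φ w = (y : E) • w → θ x = θ y → x = y) := by
    intro i
    have hirr := (hadm i).irreducible
    have hdeg : ¬ 2 ∣ (D i).M := by
      rw [← even_iff_two_dvd, Nat.not_even_iff_odd]
      exact (hadm i).degree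
    have hdim := (hC i).dimension
    unfold Datum.M at hdeg hdim ⊢
    unfold Datum.K at hdim ⊢
    rw [composite_eq] at hirr hdeg
    simp only [composite_eq] at hdim ⊢
    refine Pool.Agent.TH943.TP.double_main κ h2 (D i).h (D i).f (b := (D i).b) (c := (D i).c)
      ?_ ?_ hirr hdeg (C i).Φ (fun L _ _ _ => (hC i).lefschetz L) hdim
    · intro l h0
      have := (hadm i).exponents l
      rw [h0] at this
      exact absurd this (by decide)
    · intro h0
      have := (hadm i).exponent
      rw [h0] at this
      exact absurd this (by decide)
  have hz : IsPrimitiveRoot (-1 : κ) (2 ^ 1) := by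
    rw [pow_one]
    refine IsPrimitiveRoot.mk_of_lt (-1 : κ) (by norm_num) (by norm_num) ?_
    intro l hl1 hl2
    have : l = 1 := by omega
    rw [this, pow_one]
    intro h0
    apply h2
    have : (1 : κ) + 1 = 0 := by
      nth_rw 1 [← h0]
      ring
    rw [← this]
    norm_num
  have h1 := Pool.Agent.TH943.TP.graph_main (q := Fintype.card κ) Fintype.one_lt_card
    (fun k _ _ => Pool.Agent.W528.HS.card_eq_one Nat.prime_two le_rfl hz k)
    (fun i => (D i).dim) (fun i => (D i).K) (fun i => (D i).M) hcop (E := E)
    (W := fun i => (C i).W) (fun i => (C i).Φ)
    (fun i => (hmain i).1) (fun i => (hmain i).2.1) (fun i => (hmain i).2.2) (fun i => (C i).B)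
    (fun i => (hC i).isPairing.nondegenerate) (fun i => (hC i).isPairing.symmetric)
    (fun i => (hC i).isPairing.similitude)
    (fun i => (C i).γ) (fun i => (hC i).graph) hr0 hr j
  intro t ht
  have h3 := h1 t ht
  unfold Pool.Agent.TH943.TP.gcl at h3
  unfold graphClasses productClass
  simp only [component_eq]
  exact h3

end Pool.Agent.Results.MP_81632f_ag.GraphClasses
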