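import Pool.Agent.TH639.SX.Inter

/-!
Tate classes and semisimplicity for the smooth complete intersections `w_i ^ N = F_i(x_0, ..., x_m)`,
`N` a prime power.
-/

set_option autoImplicit false
set_option maxHeartbeats 1000000

open Polynomial

namespace Pool.Agent.Results.MP_81632f_ag.PowerCompleteIntersections

open Pool.Agent.TH639.SN Pool.Agent.TH639.SX

section defs

variable {k : Type} [Field k] {ι : Type}

open Classical in
/-- The projective variety `B_T` defined by the forms `F i`, `i ∈ T`, is a smooth complete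
intersection: the forms and the minors of the size of `T` of their matrix of partial derivatives have
no common zero in projective space over an algebraic closure. -/
def IsSmoothAt (m : ℕ) (F : ι → MvPolynomial (Fin (m + 1)) k) (T : Finset ι) : Prop :=
  ∀ a, ∃ n : ℕ, MvPolynomial.X a ^ n ∈ Ideal.span
    ({G | ∃ i ∈ T, G = F i} ∪ {G | ∃ c : T → Fin (m + 1),
      G = Matrix.det (Matrix.of fun i j : T => MvPolynomial.pderiv (c j) (F i.1))})

/-- The `F i` are forms of the degrees `d i > 0`, divisible by the numbers `N i`, and all the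
intersections `B_T` of the hypersurfaces `F i = 0`, for nonempty `T`, are smooth complete
intersections. -/
structure IsFamily (m : ℕ) (N d : ι → ℕ) (F : ι → MvPolynomial (Fin (m + 1)) k) : Prop where
  form : ∀ i, (F i).IsHomogeneous (d i)
  pos : ∀ i, 0 < d i
  degree : ∀ i, N i ∣ d i
  smooth : ∀ T : Finset ι, T ≠ ∅ → IsSmoothAt m F T

/-- The polynomial `L` has the constant coefficient one, and for `n = m - |T|` the zeta function of
`B_T` is `L(T) / ∏ (1 - q ^ e T)` if `n` is odd, and `1 / (L(T) ∏ (1 - q ^ e T))` if `n` is even, where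
`0 ≤ e ≤ n` (here `m` is even). For a smooth complete intersection `L` is the characteristic
polynomial `det(1 - T Φ)` of Frobenius on the primitive part of the middle cohomology of `B_T`. -/
def IsPrimitivePart (m : ℕ) (F : ι → MvPolynomial (Fin (m + 1)) k) (T : Finset ι) (L : ℤ[X]) :
    Prop :=
  L.coeff 0 = 1 ∧
  (¬ Even T.card → interProj m F T * (L : PowerSeries ℤ) =
    (tate (Nat.card k) (m + 1 - T.card) : PowerSeries ℤ)) ∧
  (Even T.card → interProj m F T =
    (L : PowerSeries ℤ) * (tate (Nat.card k) (m + 1 - T.card) : PowerSeries ℤ))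

/-- The multiplicity of the zero one of the reduction of `L` modulo `ℓ`. -/
noncomputable def multOne (ℓ : ℕ) (L : ℤ[X]) : ℕ :=
  (L.map (Int.castRingHom (ZMod ℓ))).rootMultiplicity 1

/-- The product `multiProj ψ m F` over the closed points of projective space is a polynomial over `A`
times the product of the `(1 - q ^ (m / 2) ζ T) ^ (r ζ)`, for the elements `ζ` of `Z`. -/
def VanishesTo {A : Type} [CommRing A] [Fintype ι] (ψ : ι → MulChar k A) (m : ℕ)
    (F : ι → MvPolynomial (Fin (m + 1)) k) (Z : Finset A) (r : A → ℕ) : Prop :=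
  ∃ H : A[X], multiProj ψ m F =
    (((∏ ζ ∈ Z, (1 - C ((Nat.card k : A) ^ (m / 2) * ζ) * X) ^ r ζ) * H : A[X]) : PowerSeries A)

/-- The product `projProduct χ m G` over the closed points of projective space is a polynomial and
vanishes at `T = q ^ (- m / 2)`. -/
def Vanishes {A : Type} [CommRing A] (χ : MulChar k A) (m : ℕ)
    (G : MvPolynomial (Fin (m + 1)) k) : Prop :=
  ∃ H : A[X], projProduct χ m G =
    (((1 - C ((Nat.card k : A) ^ (m / 2)) * X) * H : A[X]) : PowerSeries A)

/-- The kernel of a character of order `N` consists of `N`-th powers. -/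
theorem exists_root {A : Type} [CommRing A] [Finite k] {N : ℕ} {χ : MulChar k A}
    (hχ : orderOf χ = N) {x : k} (hx : x ≠ 0) (h : χ x = 1) : ∃ w : k, x = w ^ N := by
  obtain ⟨g, hg⟩ := IsCyclic.exists_generator (α := kˣ)
  obtain ⟨n, hn⟩ := mem_powers_iff_mem_zpowers.2 (hg (Units.mk0 x hx))
  have hn' : g ^ n = Units.mk0 x hx := hn
  have h1 : χ (g : k) ^ n = 1 := by
    rw [← map_pow, ← Units.val_pow_eq_pow_val, hn', Units.val_mk0, h]
  have h2 : χ ^ n = 1 := by
    rcases Nat.eq_zero_or_pos n with h0 | h0
    · rw [h0, pow_zero]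
    apply MulChar.ext
    intro b
    obtain ⟨m, hm⟩ := mem_powers_iff_mem_zpowers.2 (hg b)
    have hm' : g ^ m = b := hm
    rw [MulChar.pow_apply' χ h0.ne', MulChar.one_apply b.isUnit, ← hm',
      Units.val_pow_eq_pow_val, map_pow, ← pow_mul, mul_comm, pow_mul, h1, one_pow]
  obtain ⟨s, hs⟩ := (hχ ▸ orderOf_dvd_of_pow_eq_one h2 : N ∣ n)
  refine ⟨((g ^ s : kˣ) : k), ?_⟩
  rw [← Units.val_pow_eq_pow_val, ← pow_mul, mul_comm s N, ← hs, hn', Units.val_mk0]

theorem dvd_card {A : Type} [CommRing A] [Finite k] {ℓ a : ℕ} (ha : a ≠ 0) {χ : MulChar k A}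
    (hχ : orderOf χ = ℓ ^ a) : ℓ ∣ Nat.card k - 1 := by
  have h1 : χ ^ (Nat.card k - 1) = 1 := by
    have hk1 : 1 < Nat.card k := Finite.one_lt_card
    apply MulChar.ext
    intro a
    have := Fintype.ofFinite k
    rw [MulChar.pow_apply' χ (by omega), MulChar.one_apply a.isUnit, ← map_pow,
      Nat.card_eq_fintype_card, FiniteField.pow_card_sub_one_eq_one _ a.ne_zero, map_one]
  have h2 := orderOf_dvd_of_pow_eq_one h1
  rw [hχ] at h2
  exact (dvd_pow_self ℓ ha).trans h2

end defs

/-- **Tate classes on the smooth complete intersections `w_i ^ N = F_i(x_0, ..., x_m)`.**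

Let `ℓ` be a prime, `k` a finite field with `q` elements, `m ≥ 4` even, and `F_i`, for `i` in a
nonempty set `ι` with less than `m` elements, forms in `m + 1` variables over `k` such that all the
intersections `B_T` of the hypersurfaces `F_i = 0`, `i ∈ T`, are smooth complete intersections. Let
`ψ_i` be characters of `kˣ` of orders `ℓ ^ (a_i) > 1` dividing the degrees `d_i`, with values in an
integral domain `A` of characteristic zero which is integral over the integers. They define a Kummer
sheaf on the complement `U` of the hypersurfaces with the trace `∏ ψ_i(N F_i(z))` at a closed point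
`z`. It is tame and ramified along all the hypersurfaces, which cross transversally; so only the
cohomology `V = H_c^m(U) = H^m(U)` with these coefficients is not zero, it is pure of weight `m`, and
`multiProj ψ m F` is the characteristic polynomial `det(1 - T Φ)` of the Frobenius `Φ` on `V`. Let
`L_T` be the characteristic polynomial of Frobenius on the primitive part of the middle cohomology of
`B_T`; for curves `B_T` the number `L_T(1)` is the number of rational points of the Jacobian.

(1) For every finite set `Z` of roots of unity in `A` whose orders are powers of `ℓ`, the sum over `ζ`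
in `Z` of the multiplicities of the eigenvalues `q ^ (m / 2) ζ` of `Φ` is at most the sum of the
multiplicities of the zero one of `L_T` modulo `ℓ` over all nonempty `T`, plus one if there is only
one form.

(2) If `L_{i}(1)` is prime to `ℓ`, then there is at most one class `u` in `kˣ` modulo powers with the
order of `ψ_i` as exponent for which `q ^ (m / 2)` is an eigenvalue of Frobenius on `V` for the single
form `u F_i` and the character `ψ_i`.

Consequence for the question. Let `N` be a power of `ℓ` dividing `q - 1` and the `d_i`, and for `u_i` in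
`kˣ` let `X_u` be the smooth complete intersection `w_i ^ N = u_i F_i(x_0, ..., x_m)`, `i` in `I`, of
dimension `m = 2 c` (in a weighted projective space, for `d_i = N` in projective space). Its cohomology
is the sum of that of projective space and, in degree `m`, of the spaces `V` for the nonempty subsets
`ι` of `I` and the characters `ψ_i ≠ 1`, `i ∈ ι`, with `ψ_i ^ N = 1` (and the forms `u_i F_i`). Assume
that `ℓ` does not divide the numbers `L_T(1)` for the nonempty `T`. By (1), for all `u`, and over all
extensions of `k` whose degree is a power of `ℓ`, the Tate eigenvalue does not occur on `V` if there are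
at least two characters, and it has the multiplicity at most one if there is one character. Hence the
eigenvalue `1` of Frobenius on `H^{2c}(X_u)(c)` is semisimple: Q2 holds for all `X_u`. By (2) the class
map `c^c` is surjective for `X_u`, with the multiples of the class of a linear section as image, if
`N = ℓ` and each `u_i` avoids one class modulo `ℓ`-th powers. -/
theorem result (ℓ : ℕ) (hℓ : ℓ.Prime) (k : Type) [Field k] [Finite k] (A : Type) [CommRing A]
    [IsDomain A] [CharZero A] [Algebra.IsIntegral ℤ A] (m : ℕ) (_hm : Even m) (_hm4 : 4 ≤ m)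
    (ι : Type) [Fintype ι] [Nonempty ι] (hι : Fintype.card ι < m)
    (ψ : ι → MulChar k A) (hψ : ∀ i, ∃ a, a ≠ 0 ∧ orderOf (ψ i) = ℓ ^ a) (d : ι → ℕ)
    (F : ι → MvPolynomial (Fin (m + 1)) k) (_hF : IsFamily m (fun i => orderOf (ψ i)) d F)
    (L : Finset ι → ℤ[X]) (hL : ∀ T, T ≠ ∅ → IsPrimitivePart m F T (L T)) :
    (∀ Z : Finset A, (∀ ζ ∈ Z, ∃ j : ℕ, ζ ^ (ℓ ^ j) = 1) → ∀ r : A → ℕ,
      VanishesTo ψ m F Z r → ∑ ζ ∈ Z, r ζ ≤ (∑ᶠ (T : Finset ι) (_ : T ≠ ∅), multOne ℓ (L T)) +
        if Fintype.card ι = 1 then 1 else 0) ∧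
    (∀ i, ¬ (ℓ : ℤ) ∣ (L {i}).eval 1 → ∀ u v : k, u ≠ 0 → v ≠ 0 →
      Vanishes (ψ i) m (MvPolynomial.C u * F i) → Vanishes (ψ i) m (MvPolynomial.C v * F i) →
      ∃ w : k, u = v * w ^ orderOf (ψ i)) := by
  classical
  obtain ⟨i0⟩ := ‹Nonempty ι›
  have : Nonempty ι := ⟨i0⟩
  obtain ⟨a0, ha0, h0⟩ := hψ i0
  have hFp : Fact ℓ.Prime := ⟨hℓ⟩
  constructor
  · intro Z hZ r hr
    obtain ⟨H, hH⟩ := hr
    have h1 := bound_inter hℓ (dvd_card ha0 h0) (ψ := ψ)
      (fun i => by
        obtain ⟨a, -, h⟩ := hψ i
        exact ⟨a, by rw [← h]; exact pow_orderOf_eq_one (ψ i)⟩) m hι.le F (L := L)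
      (fun T hT => (hL T (by
        rintro rfl
        exact hT (by rw [Finset.card_empty]; exact Even.zero))).2.1 hT)
      (fun T hT hT' => (hL T hT).2.2 hT')
      (fun T hT _ h => by
        have h2 := congrArg (fun p => p.coeff 0) h
        simp only [coeff_map, (hL T hT).1, map_one, coeff_zero] at h2
        exact one_ne_zero h2) Z
      (fun ζ => (Nat.card k : A) ^ (m / 2) * ζ) (fun ζ hζ => by
        obtain ⟨j, hj⟩ := hZ ζ hζ
        exact ⟨m / 2 * ℓ ^ j, j, by rw [mul_pow, hj, mul_one, ← pow_mul]⟩) r H hH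
    have h3 : ∀ T, multOne ℓ (L T) = Pool.Agent.TH639.SG.muL ℓ (L T) := fun _ => rfl
    have h4 : ∑ᶠ (T : Finset ι) (_ : T ≠ ∅), multOne ℓ (L T) =
        ∑ T ∈ Finset.univ.erase ∅, Pool.Agent.TH639.SG.muL ℓ (L T) := by
      simp only [h3]
      apply finsum_mem_eq_sum_of_inter_support_eq
      ext T
      change (T ≠ ∅ ∧ _) ↔ (T ∈ Finset.univ.erase ∅ ∧ _)
      rw [Finset.mem_erase, and_iff_left (Finset.mem_univ T)]
    rw [h4, add_comm]
    exact h1
  · intro i hi u v hu hv h₁ h₂
    obtain ⟨H₁, h₁⟩ := h₁
    obtain ⟨H₂, h₂⟩ := h₂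
    obtain ⟨a, -, ha⟩ := hψ i
    have hL' : projZetaInv m (F i) * (L {i} : PowerSeries ℤ) =
        ((∏ e ∈ Finset.range m, (1 - Polynomial.C ((Nat.card k : ℤ) ^ e) * Polynomial.X) :
          ℤ[X]) : PowerSeries ℤ) := by
      have h3 := (hL {i} (Finset.singleton_ne_empty i)).2.1 (by
        rw [Finset.card_singleton]; exact Nat.not_even_one)
      rw [Finset.card_singleton, Nat.add_sub_cancel] at h3
      rw [← inter_single]
      exact h3
    have h3 := at_most_one hℓ (dvd_card ha0 h0) (χ := ψ i) (a := a)
      (by rw [← ha]; exact pow_orderOf_eq_one (ψ i)) m (m / 2) (F i) hL' hi hu hv h₁ h₂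
    have h4 : ψ i (u * v⁻¹) = 1 := by
      rw [map_mul, h3, ← map_mul, mul_inv_cancel₀ hv, map_one]
    obtain ⟨w, hw⟩ := exists_root (χ := ψ i) rfl (mul_ne_zero hu (inv_ne_zero hv)) h4
    refine ⟨w, ?_⟩
    rw [← hw, mul_comm v, mul_assoc, inv_mul_cancel₀ hv, mul_one]

end Pool.Agent.Results.MP_81632f_ag.PowerCompleteIntersections
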